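import Pool.Agent.TH664.CG.Exi

/-! The radicand in a short interval and a residue class. -/

set_option autoImplicit false

namespace Pool.Agent.TH664.CG

/-- the radicand with all data, for given parameters -/
theorem exists_window {M g b l n : ℕ} (hn : 1 ≤ n) (hM : 1 ≤ M) (hg : Squarefree g) (hgM : g ∣ M)
    (hb : Nat.Coprime b (6 * M)) (hl : l.Prime) (hl6 : ¬ l ∣ 6 * M) {w : ℝ} (hw : 1 ≤ w) :
    ∃ d z : ℕ, ∃ x y : ℤ, Squarefree d ∧ d ≡ g * b [MOD 36 * M * g] ∧ w ^ 4 ≤ d ∧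
      (d : ℝ) ≤ w ^ 4 + 6 * 2 ^ 15 * 36 ^ 7 * ((M : ℝ) ^ 10 * (g : ℝ) ^ 4 * (l : ℝ) ^ (2 * n + 4)) * w ^ 3 ∧
      2 ≤ z ∧ x ^ 2 + d * y ^ 2 = (z : ℤ) ^ (2 * n) ∧ IsCoprime (2 * x) (z : ℤ) ∧ 4 * z ^ n < d := by
  have hg1 : 1 ≤ g := Nat.pos_of_dvd_of_pos hgM hM
  have hl2 : 2 ≤ l := hl.two_le
  obtain ⟨Q, hQ⟩ : ∃ Q : ℕ, Q = 36 * M ^ 2 := ⟨_, rfl⟩
  obtain ⟨N, hN⟩ : ∃ N : ℕ, N = 36 * M * g * l := ⟨_, rfl⟩
  have hQ1 : 1 ≤ Q := by rw [hQ]; nlinarith [Nat.pow_pos (n := 2) hM]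
  have hN8 : 8 ≤ N := by
    rw [hN]
    have h1 : 36 * 1 * 1 * 1 ≤ 36 * M * g * l :=
      Nat.mul_le_mul (Nat.mul_le_mul (Nat.mul_le_mul le_rfl hM) hg1) (by omega)
    omega
  have hQR : (1 : ℝ) ≤ (Q : ℝ) := by exact_mod_cast hQ1
  have hNR : (8 : ℝ) ≤ (N : ℝ) := by exact_mod_cast hN8
  -- the power
  have hT01 : (1 : ℝ) ≤ 1024 * ((Q : ℝ) * N) ^ 2 * w ^ 2 := by
    have h1 : (1 : ℝ) ≤ ((Q : ℝ) * N) ^ 2 := one_le_pow₀ (by nlinarith)
    have h2 : (1 : ℝ) ≤ w ^ 2 := one_le_pow₀ hw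
    nlinarith
  have hL1 : (1 : ℝ) < (l : ℝ) ^ n :=
    one_lt_pow₀ (by exact_mod_cast hl.one_lt) (by omega)
  obtain ⟨k, hk1, hk2⟩ := exists_nat_pow_near hT01 hL1
  obtain ⟨z, hz⟩ : ∃ z : ℕ, z = l ^ (k + 1) := ⟨_, rfl⟩
  obtain ⟨T, hT⟩ : ∃ T : ℕ, T = z ^ n := ⟨_, rfl⟩
  have hTr : (T : ℝ) = ((l : ℝ) ^ n) ^ (k + 1) := by
    rw [hT, hz]
    push_cast
    rw [← pow_mul, ← pow_mul, mul_comm]
  have hTlow : 1024 * ((Q : ℝ) * N) ^ 2 * w ^ 2 ≤ (T : ℝ) := by rw [hTr]; exact hk2.le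
  have hThigh : (T : ℝ) ≤ 1024 * ((Q : ℝ) * N) ^ 2 * w ^ 2 * (l : ℝ) ^ n := by
    rw [hTr, pow_succ]
    exact mul_le_mul_of_nonneg_right hk1 (by positivity)
  have hz2 : 2 ≤ z := by
    rw [hz]
    exact hl2.trans (Nat.le_self_pow (by omega) l)
  have hTprime : ∀ p : ℕ, p.Prime → p ∣ T → p = l := by
    intro p hp hpT
    rw [hT, hz] at hpT
    exact (Nat.prime_dvd_prime_iff_eq hp hl).1 (hp.dvd_of_dvd_pow (hp.dvd_of_dvd_pow hpT))
  have hlT : l ∣ T := by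
    rw [hT, hz]
    exact dvd_pow (dvd_pow_self l (by omega)) (by omega)
  have hl36 : ¬ l ∣ 36 * M * g := by
    intro h
    apply hl6
    have h1 : 36 * M * g ∣ (6 * M) ^ 2 * M := by
      obtain ⟨M1, hM1⟩ := hgM
      have : (6 * M) ^ 2 * M = (36 * M * g) * (M1 * M) := by
        calc (6 * M) ^ 2 * M = 36 * M * M * M := by ring
          _ = 36 * M * (g * M1) * M := by rw [← hM1]
          _ = _ := by ring
      rw [this]
      exact Dvd.intro _ rfl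
    rcases (Nat.Prime.dvd_mul hl).1 (h.trans h1) with h2 | h2
    · exact hl.dvd_of_dvd_pow h2
    · exact h2.mul_left 6
  have hlm : Nat.Coprime l (36 * M * g) := (Nat.Prime.coprime_iff_not_dvd hl).2 hl36
  have hTm : Nat.Coprime T (36 * M * g) := by
    rw [hT, hz, ← pow_mul]
    exact Nat.Coprime.pow_left _ hlm
  have hm1 : 1 < 36 * M * g := by
    have : 36 * 1 * 1 ≤ 36 * M * g := Nat.mul_le_mul (Nat.mul_le_mul le_rfl hM) hg1
    omega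
  obtain ⟨u0, hu01, hu02⟩ := exists_u0 (g * b) hlm hTm hm1
  -- sizes
  obtain ⟨s, hs⟩ : ∃ s : ℕ, s = Nat.sqrt T := ⟨_, rfl⟩
  have hT1 : 1 ≤ T := by
    rw [hT]
    exact Nat.pow_pos (by omega)
  have hs1 : 1 ≤ s := by
    rw [hs]
    exact Nat.sqrt_pos.2 hT1
  have hsT : s ^ 2 ≤ T := by
    rw [hs]
    exact Nat.sqrt_le' T
  have hs1R : (1 : ℝ) ≤ (s : ℝ) := by exact_mod_cast hs1
  have hsTR : (s : ℝ) ^ 2 ≤ (T : ℝ) := by exact_mod_cast hsT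
  have hw2 : (1 : ℝ) ≤ w ^ 2 := one_le_pow₀ hw
  have hQN : (1 : ℝ) ≤ (Q : ℝ) * N := by nlinarith
  have hQN2 : (Q : ℝ) ≤ (Q : ℝ) * N := by nlinarith
  have hT0R : (0 : ℝ) < (T : ℝ) := by exact_mod_cast hT1
  have hQT4 : 4 * (Q : ℝ) ≤ (T : ℝ) := by
    have h1 : (Q : ℝ) * N ≤ ((Q : ℝ) * N) ^ 2 := by nlinarith
    have h2 : ((Q : ℝ) * N) ^ 2 ≤ ((Q : ℝ) * N) ^ 2 * w ^ 2 := by nlinarith
    nlinarith
  have hXT : 8 * (Q : ℝ) * w ^ 4 ≤ (T : ℝ) ^ 2 := by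
    have h1 : (Q : ℝ) ≤ ((Q : ℝ) * N) ^ 2 := by nlinarith
    have h3 : (Q : ℝ) * w ^ 2 ≤ ((Q : ℝ) * N) ^ 2 * w ^ 2 := mul_le_mul_of_nonneg_right h1 (by positivity)
    have h4 : w ^ 2 ≤ (Q : ℝ) * w ^ 2 := by nlinarith
    have h5 : 8 * ((Q : ℝ) * w ^ 2) ≤ T := by nlinarith
    have h6 : w ^ 2 ≤ T := by nlinarith
    calc 8 * (Q : ℝ) * w ^ 4 = (8 * ((Q : ℝ) * w ^ 2)) * w ^ 2 := by ring
      _ ≤ (T : ℝ) * T := mul_le_mul h5 h6 (by positivity) hT0R.le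
      _ = (T : ℝ) ^ 2 := by ring
  obtain ⟨U, hU1, hUX, hUX', hUT⟩ := exists_U (X := w ^ 4) (one_le_pow₀ hw) hT0R hQR hXT hQT4
  obtain ⟨U0, hU0a, hU0b, hU0c⟩ := exists_shift N (U + 8) u0 (by omega)
  have hwin := window hQR hNR hw hTlow hs1R hsTR hUT
  have hwinN : 2 * Q * (U + 8 + N * (4 * s + 2)) ≤ T := by exact_mod_cast hwin
  -- the sieve
  obtain ⟨H, hH⟩ : ∃ H : ℕ, H = 4 * s + 1 := ⟨_, rfl⟩
  have hbd : U0 + N * H < U + 8 + N * (4 * s + 2) := by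
    have : N * (4 * s + 2) = N * H + N := by rw [hH]; ring
    rw [this]
    omega
  have hQbd : Q * (U0 + N * H) < T := by
    have h1 : Q * (U0 + N * H) < Q * (U + 8 + N * (4 * s + 2)) :=
      Nat.mul_lt_mul_of_pos_left hbd hQ1
    have h2 : Q * (U + 8 + N * (4 * s + 2)) ≤ 2 * Q * (U + 8 + N * (4 * s + 2)) := by
      rw [mul_assoc]
      exact Nat.le_mul_of_pos_left _ (by norm_num)
    omega
  obtain ⟨i, hiH, hi⟩ := sieve (N := N) (T := T) (Q := Q) (U := U0) (H := H)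
    (by rw [hN]; exact ⟨6 * M * g * l, by ring⟩)
    (by
      intro p hp hpQ
      rw [hQ] at hpQ
      rw [hN]
      rcases (Nat.Prime.dvd_mul hp).1 hpQ with h | h
      · exact ((h.mul_right M).mul_right g).mul_right l
      · exact ((((hp.dvd_of_dvd_pow h).mul_left 36)).mul_right g).mul_right l)
    (by omega) hQbd
    (by
      have : U0 + N * H ≤ Q * (U0 + N * H) := Nat.le_mul_of_pos_left _ hQ1
      omega)
    (by rw [hH, ← hs]; omega)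
  obtain ⟨u, hu⟩ : ∃ u : ℕ, u = U0 + N * i := ⟨_, rfl⟩
  rw [← hu] at hi
  have huN : u ≡ u0 [MOD N] := by
    rw [hu]
    refine Nat.ModEq.trans ?_ hU0c
    unfold Nat.ModEq
    rw [Nat.add_mul_mod_self_left]
  have hlN : l ∣ N := by rw [hN]; exact dvd_mul_left _ _
  have hmN : 36 * M * g ∣ N := by rw [hN]; exact dvd_mul_right _ _
  have hu_l : u ≡ 1 [MOD l] := (huN.of_dvd hlN).trans hu01
  have hu_m : u * T ≡ g * b [MOD 36 * M * g] := ((huN.of_dvd hmN).mul_right T).trans hu02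
  have hNi : N * i + N ≤ N * H := by
    have : N * (i + 1) ≤ N * H := Nat.mul_le_mul le_rfl hiH
    linarith [this]
  have hu_hi : u + 1 ≤ U + 8 + N * H := by rw [hu]; omega
  have hu_lo : U + 8 ≤ u := by rw [hu]; omega
  have hQuU : Q * (u + U) ≤ T := by
    have h1 : u + U ≤ 2 * (U + 8 + N * (4 * s + 2)) := by
      have : N * H ≤ N * (4 * s + 2) := Nat.mul_le_mul le_rfl (by omega)
      omega
    calc Q * (u + U) ≤ Q * (2 * (U + 8 + N * (4 * s + 2))) := Nat.mul_le_mul le_rfl h1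
      _ = 2 * Q * (U + 8 + N * (4 * s + 2)) := by ring
      _ ≤ T := hwinN
  have hQu2 : 2 * (Q * u) ≤ T := by
    have h1 : u ≤ U + 8 + N * (4 * s + 2) := by
      have : N * H ≤ N * (4 * s + 2) := Nat.mul_le_mul le_rfl (by omega)
      omega
    calc 2 * (Q * u) ≤ 2 * (Q * (U + 8 + N * (4 * s + 2))) :=
          Nat.mul_le_mul le_rfl (Nat.mul_le_mul le_rfl h1)
      _ = 2 * Q * (U + 8 + N * (4 * s + 2)) := by ring
      _ ≤ T := hwinN
  have hQu : Q * u ≤ T := by omega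
  obtain ⟨hsq, hcl⟩ := sqfree_d hg hgM hb hl hl6 hN hQ hTprime hlT hu_l hu_m hQu hi
  -- the real form of `d`
  have hdR : ((u * (T - Q * u) : ℕ) : ℝ) = (u : ℝ) * (T - Q * u) := by
    rw [Nat.cast_mul, Nat.cast_sub hQu]
    push_cast
    ring
  have hdZ : ((u * (T - Q * u) : ℕ) : ℤ) = (u : ℤ) * (T - Q * u) := by
    rw [Nat.cast_mul, Nat.cast_sub hQu]
    push_cast
    ring
  have hu_loR : (U : ℝ) + 8 ≤ (u : ℝ) := by exact_mod_cast hu_lo
  have hu_hiR : (u : ℝ) + 1 ≤ (U : ℝ) + 8 + N * (4 * s + 1) := by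
    have : u + 1 ≤ U + 8 + N * (4 * s + 1) := by rw [← hH]; exact hu_hi
    exact_mod_cast this
  have hQuUR : (Q : ℝ) * (u + U) ≤ T := by exact_mod_cast hQuU
  have hQu2R : 2 * ((Q : ℝ) * u) ≤ T := by exact_mod_cast hQu2
  have hU1R : (1 : ℝ) ≤ (U : ℝ) := by exact_mod_cast hU1
  refine ⟨u * (T - Q * u), z, (T : ℤ) - 2 * Q * u, 12 * M, hsq, hcl, ?_, ?_, hz2, ?_, ?_, ?_⟩
  · rw [hdR]
    have h1 : (u : ℝ) * (T - Q * u) = U * (T - Q * U) + (u - U) * (T - Q * (u + U)) := by ring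
    rw [h1]
    have h2 : 0 ≤ ((u : ℝ) - U) * (T - Q * (u + U)) :=
      mul_nonneg (by linarith) (by linarith)
    linarith
  · rw [hdR]
    have h1 : (u : ℝ) * (T - Q * u) =
        (U - 1) * (T - Q * (U - 1)) + (u - U + 1) * (T - Q * (u + U - 1)) := by ring
    have h2 : ((u : ℝ) - U + 1) * (T - Q * (u + U - 1)) ≤ (8 + N * (4 * s + 1)) * T := by
      apply mul_le_mul
      · linarith
      · have : 0 ≤ (Q : ℝ) * (u + U - 1) := mul_nonneg (by linarith) (by linarith)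
        linarith
      · have : (Q : ℝ) * (u + U - 1) ≤ Q * (u + U) :=
          mul_le_mul_of_nonneg_left (by linarith) (by linarith)
        linarith
      · positivity
    have h3 := upper hQR hNR hw hs1R hsTR hL1.le hThigh
    have h4 : (6 : ℝ) * 2 ^ 15 * ((Q : ℝ) ^ 3 * (N : ℝ) ^ 4 * ((l : ℝ) ^ n) ^ 2) * w ^ 3 =
        6 * 2 ^ 15 * 36 ^ 7 * ((M : ℝ) ^ 10 * (g : ℝ) ^ 4 * (l : ℝ) ^ (2 * n + 4)) * w ^ 3 := by
      rw [hQ, hN]
      push_cast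
      ring
    rw [h4] at h3
    rw [h1]
    linarith
  · rw [hdZ, pow_mul', ← Nat.cast_pow, ← hT, hQ]
    push_cast
    ring
  · -- coprimality
    have hprime : Nat.Coprime (2 * (2 * (Q * u))) l := by
      rw [Nat.coprime_comm, Nat.Prime.coprime_iff_not_dvd hl]
      intro h
      have hl2' : ¬ l ∣ 2 := fun h2 => hl6 ((h2.mul_right 3).mul_right M)
      have hlQ : ¬ l ∣ Q := by
        rw [hQ]
        intro h
        apply hl6
        have h1 : l ∣ (6 * M) ^ 2 := by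
          have : (6 * M) ^ 2 = 36 * M ^ 2 := by ring
          rwa [this]
        exact hl.dvd_of_dvd_pow h1
      have hlu : ¬ l ∣ u := by
        intro h
        have h1 : u % l = 1 % l := hu_l
        rw [Nat.mod_eq_zero_of_dvd h, Nat.mod_eq_of_lt hl.one_lt] at h1
        omega
      rcases (Nat.Prime.dvd_mul hl).1 h with h1 | h1
      · exact hl2' h1
      · rcases (Nat.Prime.dvd_mul hl).1 h1 with h1 | h1
        · exact hl2' h1
        · rcases (Nat.Prime.dvd_mul hl).1 h1 with h1 | h1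
          · exact hlQ h1
          · exact hlu h1
    have h1 : IsCoprime (((2 * (2 * (Q * u)) : ℕ) : ℤ)) ((l : ℕ) : ℤ) :=
      Nat.isCoprime_iff_coprime.2 hprime
    have h2 : IsCoprime (2 * ((T : ℤ) - 2 * Q * u)) (l : ℤ) := by
      obtain ⟨c, hc⟩ := hlT
      have h3 : 2 * ((T : ℤ) - 2 * Q * u) = -(((2 * (2 * (Q * u)) : ℕ) : ℤ)) + (l : ℤ) * (2 * c) := by
        rw [hc]
        push_cast
        ring
      rw [h3]
      exact (h1.neg_left).add_mul_left_left (2 * (c : ℤ))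
    rw [hz]
    push_cast
    exact h2.pow_right
  · -- size
    rw [← hT]
    have h9 : 9 ≤ u := by omega
    have h1 : T ≤ 2 * (T - Q * u) := by omega
    have h2 : 9 * (T - Q * u) ≤ u * (T - Q * u) := Nat.mul_le_mul h9 le_rfl
    omega

end Pool.Agent.TH664.CG
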