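import Mathlib

/-! Elements of given order in the class groups of imaginary quadratic fields. -/

set_option autoImplicit false

namespace Pool.Agent.TH664.CG

open NumberField Module

/-- a rational number `w` with `d w ^ 2` an integer, `d` squarefree, is an integer -/
theorem int_of_sq {d : ℕ} (hd : Squarefree d) {w : ℚ} {N : ℤ} (h : (d : ℚ) * w ^ 2 = N) :
    ∃ t : ℤ, w = t := by
  have hden : (w.den : ℚ) ≠ 0 := by exact_mod_cast w.den_nz
  have h1 : (d : ℤ) * w.num ^ 2 = N * (w.den : ℤ) ^ 2 := by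
    have h2 : (d : ℚ) * (w.num : ℚ) ^ 2 = N * (w.den : ℚ) ^ 2 := by
      have h3 : (w : ℚ) = w.num / w.den := (Rat.num_div_den w).symm
      rw [h3] at h
      field_simp at h
      linarith
    exact_mod_cast h2
  have h2 : ((w.den : ℤ) ^ 2) ∣ (d : ℤ) * w.num ^ 2 := ⟨N, by rw [h1]; ring⟩
  have hcop : IsCoprime ((w.den : ℤ) ^ 2) (w.num ^ 2) := by
    refine IsCoprime.pow ?_
    rw [Int.isCoprime_iff_gcd_eq_one]
    have := w.reduced
    rw [Nat.Coprime, Nat.gcd_comm] at this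
    simpa [Int.gcd] using this
  have h3 : ((w.den : ℤ) ^ 2) ∣ (d : ℤ) := hcop.dvd_of_dvd_mul_right h2
  have h4 : w.den ^ 2 ∣ d := by exact_mod_cast h3
  have h5 : w.den = 1 := by
    have := hd w.den (by rwa [pow_two] at h4)
    exact Nat.isUnit_iff.1 this
  exact ⟨w.num, by rw [← Rat.num_div_den w, h5]; simp⟩

section

variable {K : Type*} [Field K] [NumberField K] {s : K} {d : ℕ}

theorem indep (hd : 0 < d) (hs : s ^ 2 = -(d : K)) :
    LinearIndependent ℚ ![(1 : K), s] := by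
  rw [LinearIndependent.pair_iff]
  intro p q h
  have hdK : (0 : ℚ) < d := by exact_mod_cast hd
  have hq : q = 0 := by
    by_contra hq
    have h1 : s = algebraMap ℚ K (-p / q) := by
      rw [Algebra.smul_def, Algebra.smul_def, mul_one] at h
      have hq' : algebraMap ℚ K q ≠ 0 := by
        rw [Ne, map_eq_zero]
        exact hq
      rw [map_div₀, map_neg]
      field_simp
      linear_combination h
    have h2 : algebraMap ℚ K ((-p / q) ^ 2) = algebraMap ℚ K (-(d : ℚ)) := by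
      rw [map_pow, ← h1, hs]
      simp
    have h3 := (algebraMap ℚ K).injective h2
    nlinarith [sq_nonneg (-p / q)]
  subst hq
  rw [zero_smul, add_zero, Algebra.smul_def, mul_one, map_eq_zero] at h
  exact ⟨h, rfl⟩

/-- the basis `1, s` -/
noncomputable def bas (hd : 0 < d) (hs : s ^ 2 = -(d : K)) (hK : finrank ℚ K = 2) :
    Basis (Fin 2) ℚ K :=
  basisOfLinearIndependentOfCardEqFinrank (indep hd hs) (by rw [hK]; rfl)

theorem bas_apply (hd : 0 < d) (hs : s ^ 2 = -(d : K)) (hK : finrank ℚ K = 2) :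
    ⇑(bas hd hs hK) = ![(1 : K), s] := by
  unfold bas
  exact coe_basisOfLinearIndependentOfCardEqFinrank _ _

theorem repr_eq (hd : 0 < d) (hs : s ^ 2 = -(d : K)) (hK : finrank ℚ K = 2) (p q : ℚ) :
    ⇑((bas hd hs hK).repr (algebraMap ℚ K p + algebraMap ℚ K q * s)) = ![p, q] := by
  have h1 : algebraMap ℚ K p + algebraMap ℚ K q * s = ∑ i, (![p, q] i) • bas hd hs hK i := by
    rw [Fin.sum_univ_two, bas_apply]
    simp [Algebra.smul_def]
  rw [h1]
  exact Basis.repr_sum_self _ _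

theorem exists_coord (hd : 0 < d) (hs : s ^ 2 = -(d : K)) (hK : finrank ℚ K = 2) (x : K) :
    ∃ p q : ℚ, x = algebraMap ℚ K p + algebraMap ℚ K q * s := by
  refine ⟨(bas hd hs hK).repr x 0, (bas hd hs hK).repr x 1, ?_⟩
  have h1 := (bas hd hs hK).sum_repr x
  rw [Fin.sum_univ_two, bas_apply] at h1
  simp only [Algebra.smul_def, Matrix.cons_val_zero, Matrix.cons_val_one, mul_one] at h1
  exact h1.symm

theorem lmm (hd : 0 < d) (hs : s ^ 2 = -(d : K)) (hK : finrank ℚ K = 2) (p q : ℚ) :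
    Algebra.leftMulMatrix (bas hd hs hK) (algebraMap ℚ K p + algebraMap ℚ K q * s) =
      !![p, -(d : ℚ) * q; q, p] := by
  have e0 : (algebraMap ℚ K p + algebraMap ℚ K q * s) * (bas hd hs hK) 0 =
      algebraMap ℚ K p + algebraMap ℚ K q * s := by
    rw [bas_apply]
    simp
  have e1 : (algebraMap ℚ K p + algebraMap ℚ K q * s) * (bas hd hs hK) 1 =
      algebraMap ℚ K (-(d : ℚ) * q) + algebraMap ℚ K p * s := by
    rw [bas_apply]
    simp only [Matrix.cons_val_one, Matrix.cons_val_fin_one, map_mul, map_neg, map_natCast]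
    linear_combination (algebraMap ℚ K q) * hs
  ext i j
  rw [Algebra.leftMulMatrix_eq_repr_mul]
  fin_cases j
  · simp only [Fin.zero_eta]
    rw [e0, repr_eq]
    fin_cases i <;> rfl
  · simp only [Fin.mk_one]
    rw [e1, repr_eq]
    fin_cases i <;> rfl

theorem norm_eq (hd : 0 < d) (hs : s ^ 2 = -(d : K)) (hK : finrank ℚ K = 2) (p q : ℚ) :
    Algebra.norm ℚ (algebraMap ℚ K p + algebraMap ℚ K q * s) = p ^ 2 + d * q ^ 2 := by
  rw [Algebra.norm_eq_matrix_det (bas hd hs hK), lmm, Matrix.det_fin_two_of]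
  ring

theorem trace_eq (hd : 0 < d) (hs : s ^ 2 = -(d : K)) (hK : finrank ℚ K = 2) (p q : ℚ) :
    Algebra.trace ℚ K (algebraMap ℚ K p + algebraMap ℚ K q * s) = 2 * p := by
  rw [Algebra.trace_eq_matrix_trace (bas hd hs hK), lmm, Matrix.trace_fin_two_of]
  ring

/-- an integer of `K` of norm `B < d / 4` is a rational integer -/
theorem rational_of_small (hd : Squarefree d) (hs : s ^ 2 = -(d : K)) (hK : finrank ℚ K = 2)
    (β : 𝓞 K) (hsmall : 4 * (Algebra.norm ℤ β).natAbs < d) : ∃ c : ℤ, β = (c : 𝓞 K) := by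
  have hd0 : 0 < d := Nat.pos_of_ne_zero hd.ne_zero
  obtain ⟨p, q, hpq⟩ := exists_coord hd0 hs hK (β : K)
  have hN : ((Algebra.norm ℤ β : ℤ) : ℚ) = p ^ 2 + d * q ^ 2 := by
    rw [Algebra.coe_norm_int, hpq, norm_eq hd0 hs hK]
  have hT : ((Algebra.trace ℤ (𝓞 K) β : ℤ) : ℚ) = 2 * p := by
    rw [Algebra.coe_trace_int, hpq, trace_eq hd0 hs hK]
  obtain ⟨t, ht⟩ := int_of_sq hd (w := 2 * q)
    (N := 4 * Algebra.norm ℤ β - (Algebra.trace ℤ (𝓞 K) β) ^ 2) (by
      push_cast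
      rw [hN, hT]
      ring)
  have hB0 : 0 ≤ Algebra.norm ℤ β := by
    have : (0 : ℚ) ≤ (Algebra.norm ℤ β : ℤ) := by
      rw [hN]
      positivity
    exact_mod_cast this
  have hq : q = 0 := by
    by_contra hq
    have ht0 : t ≠ 0 := by
      rintro rfl
      apply hq
      simpa using ht
    have h1 : (1 : ℤ) ≤ t ^ 2 := by
      have := sq_nonneg t
      rcases this.lt_or_eq with h | h
      · omega
      · exact absurd (pow_eq_zero_iff (two_ne_zero)|>.1 h.symm) ht0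
    have h2 : (d : ℚ) * (t : ℚ) ^ 2 ≤ 4 * ((Algebra.norm ℤ β : ℤ) : ℚ) := by
      rw [hN, ← ht]
      nlinarith [sq_nonneg p]
    have h3 : (d : ℤ) * t ^ 2 ≤ 4 * (Algebra.norm ℤ β) := by exact_mod_cast h2
    have h4 : (4 : ℤ) * (Algebra.norm ℤ β) < d := by
      have : ((4 * (Algebra.norm ℤ β).natAbs : ℕ) : ℤ) < d := by exact_mod_cast hsmall
      push_cast at this
      rwa [abs_of_nonneg hB0] at this
    have hd1 : (0 : ℤ) < d := by exact_mod_cast hd0
    nlinarith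
  subst hq
  have hβ : (β : K) = algebraMap ℚ K p := by
    rw [hpq]
    simp
  have hint : IsIntegral ℤ p := by
    have h1 : IsIntegral ℤ (β : K) := β.2
    rw [hβ] at h1
    exact (isIntegral_algebraMap_iff (algebraMap ℚ K).injective).1 h1
  obtain ⟨c, hc⟩ := IsIntegrallyClosed.isIntegral_iff.1 hint
  refine ⟨c, ?_⟩
  apply RingOfIntegers.ext
  rw [hβ, ← hc]
  simp

/-- **Order.** If `x ^ 2 + d y ^ 2 = z ^ k` with `2 x`, `z` coprime and `4 z ^ (k / 2) < d` then
the class group has an element of order `k`. -/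
theorem exists_order (hd : Squarefree d) (hs : s ^ 2 = -(d : K)) (hK : finrank ℚ K = 2)
    {x y : ℤ} {z k : ℕ} (hz : 2 ≤ z) (hk : 1 ≤ k) (he : x ^ 2 + d * y ^ 2 = (z : ℤ) ^ k)
    (hcop : IsCoprime (2 * x) (z : ℤ)) (hsmall : 4 * z ^ (k / 2) < d) :
    ∃ g : ClassGroup (𝓞 K), orderOf g = k := by
  classical
  have hd0 : 0 < d := Nat.pos_of_ne_zero hd.ne_zero
  have hsint : IsIntegral ℤ s := by
    refine IsIntegral.of_pow (n := 2) (by norm_num) ?_
    rw [hs]
    exact (isIntegral_algebraMap (R := ℤ) (x := (d : ℤ))).neg |> fun h => by simpa using h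
  set sO : 𝓞 K := ⟨s, hsint⟩ with hsO
  have hsO2 : sO ^ 2 = -(d : 𝓞 K) := by
    apply RingOfIntegers.ext
    push_cast
    rw [← hs]
    rfl
  set α : 𝓞 K := x + y * sO with hα
  set α' : 𝓞 K := x - y * sO with hα'
  have hprod : α * α' = (z : 𝓞 K) ^ k := by
    have h1 : ((x : 𝓞 K)) ^ 2 + d * (y : 𝓞 K) ^ 2 = (z : 𝓞 K) ^ k := by
      have := congrArg (Int.cast : ℤ → 𝓞 K) he
      push_cast at this
      exact this
    rw [hα, hα']
    linear_combination h1 - (y : 𝓞 K) ^ 2 * hsO2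
  have hz0 : (z : 𝓞 K) ≠ 0 := by
    have : z ≠ 0 := by omega
    exact_mod_cast this
  have hα0 : α ≠ 0 := by
    intro h
    rw [h, zero_mul] at hprod
    exact pow_ne_zero k hz0 hprod.symm
  have hcopO : IsCoprime α α' := by
    have h1 : IsCoprime (2 * x) ((z : ℤ) ^ k) := hcop.pow_right
    obtain ⟨a, b, hab⟩ := h1
    have h2 : (a : 𝓞 K) * (2 * x) + b * (z : 𝓞 K) ^ k = 1 := by
      have := congrArg (Int.cast : ℤ → 𝓞 K) hab
      push_cast at this
      exact this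
    refine ⟨a + b * α', a, ?_⟩
    have h3 : α + α' = 2 * (x : 𝓞 K) := by
      rw [hα, hα']
      ring
    linear_combination h2 + a * h3 + b * hprod
  -- the `k`-th root of the ideal
  have hroot : ∃ A : Ideal (𝓞 K), Ideal.span {α} = A ^ k := by
    let _ : GCDMonoid (Ideal (𝓞 K)) := UniqueFactorizationMonoid.toGCDMonoid (Ideal (𝓞 K))
    refine exists_eq_pow_of_mul_eq_pow_of_coprime (b := Ideal.span {α'})
      (c := Ideal.span {(z : 𝓞 K)}) ?_ ?_
    · rwa [Ideal.isCoprime_span_singleton_iff]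
    · rw [Ideal.span_singleton_mul_span_singleton, hprod, Ideal.span_singleton_pow]
  obtain ⟨A, hA⟩ := hroot
  have hspan0 : (Ideal.span {α} : Ideal (𝓞 K)) ≠ ⊥ := by
    rwa [Ne, Ideal.span_singleton_eq_bot]
  have hk0 : k ≠ 0 := by omega
  have hA0 : A ≠ ⊥ := by
    rintro rfl
    apply hspan0
    rw [hA]
    exact zero_pow hk0
  -- its norm
  have hαK : ((α : 𝓞 K) : K) = algebraMap ℚ K (x : ℚ) + algebraMap ℚ K (y : ℚ) * s := by
    have hsmap : ((sO : 𝓞 K) : K) = s := rfl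
    have e1 : ((x + y * sO : 𝓞 K) : K) = (x : K) + (y : K) * ((sO : 𝓞 K) : K) := by
      push_cast
      rfl
    rw [hα, e1, hsmap]
    simp
  have hnα : (Algebra.norm ℤ α : ℤ) = (z : ℤ) ^ k := by
    have h1 : ((Algebra.norm ℤ α : ℤ) : ℚ) = ((z : ℤ) ^ k : ℤ) := by
      rw [Algebra.coe_norm_int]
      have h2 : ((α : 𝓞 K) : K) = algebraMap ℚ K (x : ℚ) + algebraMap ℚ K (y : ℚ) * s := hαK
      rw [h2, norm_eq hd0 hs hK]
      rw [← he]
      push_cast
      ring
    exact_mod_cast h1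
  have htα : (Algebra.trace ℤ (𝓞 K) α : ℤ) = 2 * x := by
    have h1 : ((Algebra.trace ℤ (𝓞 K) α : ℤ) : ℚ) = ((2 * x : ℤ) : ℚ) := by
      rw [Algebra.coe_trace_int]
      have h2 : ((α : 𝓞 K) : K) = algebraMap ℚ K (x : ℚ) + algebraMap ℚ K (y : ℚ) * s := hαK
      rw [h2, trace_eq hd0 hs hK]
      push_cast
      ring
    exact_mod_cast h1
  have hnA : Ideal.absNorm A = z := by
    have h1 : (Ideal.absNorm A) ^ k = z ^ k := by
      rw [← map_pow, ← hA, Ideal.absNorm_span_singleton, hnα]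
      rw [Int.natAbs_pow]
      simp
    exact Nat.pow_left_injective hk0 h1
  -- the class
  set g : ClassGroup (𝓞 K) := ClassGroup.mk0 ⟨A, mem_nonZeroDivisors_iff_ne_zero.2 hA0⟩ with hg
  have hgpow : ∀ m : ℕ, g ^ m = 1 ↔ (A ^ m).IsPrincipal := by
    intro m
    have hAm : A ^ m ≠ ⊥ := pow_ne_zero m hA0
    have h1 : g ^ m = ClassGroup.mk0 ⟨A ^ m, mem_nonZeroDivisors_iff_ne_zero.2 hAm⟩ := by
      rw [hg, ← map_pow]
      rfl
    rw [h1, ClassGroup.mk0_eq_one_iff]
  have hgk : g ^ k = 1 := by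
    rw [hgpow, ← hA]
    exact ⟨α, rfl⟩
  refine ⟨g, ?_⟩
  set m := orderOf g with hm
  have hmk : m ∣ k := orderOf_dvd_of_pow_eq_one hgk
  have hm0 : 0 < m := Nat.pos_of_ne_zero fun h => by
    rw [h, zero_dvd_iff] at hmk
    exact hk0 hmk
  by_contra hne
  obtain ⟨j, hj⟩ := hmk
  have hj2 : 2 ≤ j := by
    rcases Nat.lt_or_ge j 2 with h | h
    · interval_cases j
      · omega
      · omega
    · exact h
  have hmle : m ≤ k / 2 := by
    rw [Nat.le_div_iff_mul_le (by norm_num)]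
    nlinarith
  obtain ⟨β, hβ⟩ := (hgpow m).1 (pow_orderOf_eq_one g)
  change A ^ m = Ideal.span {β} at hβ
  have hnβ : (Algebra.norm ℤ β).natAbs = z ^ m := by
    rw [← Ideal.absNorm_span_singleton, ← hβ, map_pow, hnA]
  obtain ⟨c, hc⟩ := rational_of_small hd hs hK β (by
    rw [hnβ]
    have : z ^ m ≤ z ^ (k / 2) := Nat.pow_le_pow_right (by omega) hmle
    omega)
  have hnc : (Algebra.norm ℤ β : ℤ) = c ^ 2 := by
    have h1 : ((Algebra.norm ℤ β : ℤ) : ℚ) = ((c ^ 2 : ℤ) : ℚ) := by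
      rw [Algebra.coe_norm_int]
      have h2 : ((β : 𝓞 K) : K) = algebraMap ℚ K (c : ℚ) + algebraMap ℚ K (0 : ℚ) * s := by
        rw [hc]
        simp
      rw [h2, norm_eq hd0 hs hK]
      push_cast
      ring
    exact_mod_cast h1
  have hcdvd : (c : 𝓞 K) ∣ α := by
    have h1 : Ideal.span {α} = Ideal.span {β ^ j} := by
      rw [hA, hj, pow_mul, hβ, Ideal.span_singleton_pow]
    have h2 : β ^ j ∣ α := by
      rw [← Ideal.span_singleton_le_span_singleton, h1]
    have h3 : β ∣ β ^ j := dvd_pow_self β (by omega)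
    rw [← hc]
    exact h3.trans h2
  obtain ⟨γ, hγ⟩ := hcdvd
  have hc1 : c ∣ 2 * x := by
    rw [← htα, hγ]
    have : (c : 𝓞 K) * γ = c • γ := by rw [zsmul_eq_mul]
    rw [this, map_smul]
    exact ⟨_, rfl⟩
  have hc2 : c ∣ (z : ℤ) ^ m := by
    have h1 : (z : ℤ) ^ m = c ^ 2 := by
      have h2 : ((Algebra.norm ℤ β).natAbs : ℤ) = (z : ℤ) ^ m := by
        rw [hnβ]
        push_cast
        rfl
      rw [hnc] at h2
      rw [← h2, Int.natAbs_of_nonneg (sq_nonneg c)]
    rw [h1]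
    exact ⟨c, by ring⟩
  have hunit : IsUnit c := by
    have h1 : IsCoprime (2 * x) ((z : ℤ) ^ m) := hcop.pow_right
    exact h1.isUnit_of_dvd' hc1 hc2
  have hc3 : c ^ 2 = 1 := by
    rcases Int.isUnit_iff.1 hunit with h | h <;> rw [h] <;> norm_num
  have h4 : z ^ m = 1 := by
    rw [← hnβ, hnc, hc3]
    rfl
  have h5 : 2 ^ m ≤ z ^ m := Nat.pow_le_pow_left hz m
  have h6 : 2 ≤ 2 ^ m := by
    calc 2 = 2 ^ 1 := by norm_num
      _ ≤ 2 ^ m := Nat.pow_le_pow_right (by norm_num) hm0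
  omega

end

end Pool.Agent.TH664.CG
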