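import Mathlib.Analysis.SpecialFunctions.Pow.Real
import Mathlib.Tactic.Positivity
import Mathlib.Tactic.Linarith

/-! Real inequalities which place the window. -/

set_option autoImplicit false

namespace Pool.Agent.TH664.CG

theorem window {Q N w T s U : ℝ} (hQ : 1 ≤ Q) (hN : 8 ≤ N) (hw : 1 ≤ w)
    (hT : 1024 * (Q * N) ^ 2 * w ^ 2 ≤ T) (hs1 : 1 ≤ s) (hs : s ^ 2 ≤ T)
    (hU : U * T ≤ 2 * w ^ 4 + T) : 2 * Q * (U + 8 + N * (4 * s + 2)) ≤ T := by
  obtain ⟨P, hP⟩ : ∃ P : ℝ, P = Q * N := ⟨_, rfl⟩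
  rw [← hP] at hT
  have hQP : Q ≤ P := by rw [hP]; nlinarith
  have hP1 : 1 ≤ P := hQ.trans hQP
  have hw2 : 1 ≤ w ^ 2 := one_le_pow₀ hw
  have hPP : P ≤ P ^ 2 := by nlinarith
  have hPw : P * w ^ 2 ≤ P ^ 2 * w ^ 2 := mul_le_mul_of_nonneg_right hPP (by positivity)
  have hTP : 1024 * (P * w ^ 2) ≤ T := by nlinarith
  have hT0 : 0 < T := by
    have : 0 < P * w ^ 2 := by positivity
    linarith
  have hU1 : U ≤ w ^ 2 / 512 + 1 := by
    by_contra hcon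
    push Not at hcon
    have h1 : w ^ 2 / 512 * T < (U - 1) * T := mul_lt_mul_of_pos_right (by linarith) hT0
    have h2 : w ^ 2 / 512 * (1024 * P ^ 2 * w ^ 2) ≤ w ^ 2 / 512 * T :=
      mul_le_mul_of_nonneg_left hT (by positivity)
    have h3 : w ^ 4 ≤ P ^ 2 * w ^ 4 := by
      have : 1 ≤ P ^ 2 := one_le_pow₀ hP1
      nlinarith [pow_pos (by linarith : (0:ℝ) < w) 4]
    nlinarith
  have hsT : 32 * (P * s) ≤ T := by
    have h1 : s * (32 * P * w) ≤ T := by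
      nlinarith [sq_nonneg (s - 32 * P * w)]
    have h2 : 32 * (P * s) ≤ s * (32 * P * w) := by
      have : 0 ≤ P * s := by positivity
      nlinarith
    linarith
  have hA : 2 * Q * U ≤ 3 * (P * w ^ 2) := by
    have h1 : 2 * Q * U ≤ 2 * Q * (w ^ 2 / 512 + 1) := mul_le_mul_of_nonneg_left hU1 (by positivity)
    have h2 : Q * (w ^ 2 / 512 + 1) ≤ P * (w ^ 2 / 512 + 1) := mul_le_mul_of_nonneg_right hQP (by positivity)
    have h3 : P ≤ P * w ^ 2 := by nlinarith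
    nlinarith
  have hB : 16 * Q ≤ 16 * (P * w ^ 2) := by
    have h3 : P ≤ P * w ^ 2 := by nlinarith
    linarith
  have hC : 2 * Q * (N * (4 * s + 2)) ≤ 12 * (P * s) := by
    have h1 : 2 * Q * (N * (4 * s + 2)) = P * (8 * s + 4) := by rw [hP]; ring
    rw [h1]
    nlinarith
  nlinarith

theorem upper {Q N w T s L : ℝ} (hQ : 1 ≤ Q) (hN : 8 ≤ N) (hw : 1 ≤ w)
    (hs1 : 1 ≤ s) (hs : s ^ 2 ≤ T) (hL : 1 ≤ L) (hT : T ≤ 1024 * (Q * N) ^ 2 * w ^ 2 * L) :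
    (8 + N * (4 * s + 1)) * T ≤ 6 * 2 ^ 15 * (Q ^ 3 * N ^ 4 * L ^ 2) * w ^ 3 := by
  have hQ0 : 0 < Q := by linarith
  have hN0 : 0 < N := by linarith
  have hw0 : 0 < w := by linarith
  have hL0 : 0 < L := by linarith
  have h1 : s ≤ 32 * (Q * N) * w * L := by
    have h2 : s ^ 2 ≤ (32 * (Q * N) * w * L) ^ 2 := by
      have h3 : (32 * (Q * N) * w * L) ^ 2 = (1024 * (Q * N) ^ 2 * w ^ 2 * L) * L := by ring
      have h4 : 0 ≤ 1024 * (Q * N) ^ 2 * w ^ 2 * L := by positivity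
      have h5 : 1024 * (Q * N) ^ 2 * w ^ 2 * L ≤ (1024 * (Q * N) ^ 2 * w ^ 2 * L) * L := by
        nlinarith
      linarith
    exact le_of_sq_le_sq h2 (by positivity)
  have h6 : 8 + N * (4 * s + 1) ≤ 6 * N * s := by nlinarith
  have hT0 : 0 ≤ T := le_trans (sq_nonneg s) hs
  calc (8 + N * (4 * s + 1)) * T ≤ (6 * N * s) * T := mul_le_mul_of_nonneg_right h6 hT0
    _ ≤ (6 * N * (32 * (Q * N) * w * L)) * (1024 * (Q * N) ^ 2 * w ^ 2 * L) := by
        apply mul_le_mul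
        · exact mul_le_mul_of_nonneg_left h1 (by positivity)
        · exact hT
        · exact hT0
        · positivity
    _ = _ := by ring

end Pool.Agent.TH664.CG
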