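import Pool.Agent.TH664.CG.Par
import Pool.Agent.TH664.CG.Win
import Mathlib.Data.Nat.ChineseRemainder

/-! Existence of the radicand in a window. -/

set_option autoImplicit false

namespace Pool.Agent.TH664.CG

/-- the starting class: `u ≡ 1 (mod l)` and `u T ≡ c (mod m)` -/
theorem exists_u0 {l m T : ℕ} (c : ℕ) (hlm : Nat.Coprime l m) (hTm : Nat.Coprime T m) (hm : 1 < m) :
    ∃ u0 : ℕ, u0 ≡ 1 [MOD l] ∧ u0 * T ≡ c [MOD m] := by
  obtain ⟨v, hv⟩ := Nat.exists_mul_mod_eq_one_of_coprime hTm hm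
  obtain ⟨k, hk1, hk2⟩ := Nat.chineseRemainder hlm 1 (v * c)
  refine ⟨k, hk1, ?_⟩
  have h1 : k * T ≡ (v * c) * T [MOD m] := hk2.mul_right T
  refine h1.trans ?_
  have h2 : (v * c) * T = (T * v) * c := by ring
  rw [h2]
  have h3 : T * v ≡ 1 [MOD m] := by
    unfold Nat.ModEq
    rw [hv.2, Nat.mod_eq_of_lt hm]
  simpa using h3.mul_right c

/-- a representative in a window -/
theorem exists_shift (N V u0 : ℕ) (hN : 1 ≤ N) : ∃ U0 : ℕ, V ≤ U0 ∧ U0 < V + N ∧ U0 ≡ u0 [MOD N] := by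
  refine ⟨V + (u0 + (N - 1) * V) % N, Nat.le_add_right _ _,
    Nat.add_lt_add_left (Nat.mod_lt _ hN) _, ?_⟩
  have h1 : (u0 + (N - 1) * V) % N ≡ u0 + (N - 1) * V [MOD N] := Nat.mod_modEq _ _
  have h2 := h1.add_left V
  refine h2.trans ?_
  have h3 : V + (u0 + (N - 1) * V) = u0 + N * V := by
    obtain ⟨k, hk⟩ : ∃ k, N = k + 1 := ⟨N - 1, by omega⟩
    subst hk
    simp only [Nat.add_sub_cancel]
    ring
  rw [h3]
  unfold Nat.ModEq
  rw [Nat.add_mul_mod_self_left]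

/-- the least `U` with `X ≤ U (T - Q U)` -/
theorem exists_U {X T Q : ℝ} (hX : 1 ≤ X) (hT : 0 < T) (hQ : 1 ≤ Q)
    (hX2 : 8 * Q * X ≤ T ^ 2) (hQT : 4 * Q ≤ T) :
    ∃ U : ℕ, 1 ≤ U ∧ X ≤ U * (T - Q * U) ∧ ((U : ℝ) - 1) * (T - Q * ((U : ℝ) - 1)) < X ∧
      U * T ≤ 2 * X + T := by
  classical
  have hex : ∃ u : ℕ, X ≤ (u : ℝ) * (T - Q * u) ∧ (u : ℝ) * T ≤ 2 * X + T := by
    refine ⟨⌈2 * X / T⌉₊, ?_, ?_⟩
    · have h1 : 2 * X / T ≤ (⌈2 * X / T⌉₊ : ℝ) := Nat.le_ceil _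
      have h2 : (⌈2 * X / T⌉₊ : ℝ) < 2 * X / T + 1 := Nat.ceil_lt_add_one (by positivity)
      set c : ℝ := (⌈2 * X / T⌉₊ : ℝ) with hc
      have h3 : 2 * X ≤ c * T := (div_le_iff₀ hT).1 h1
      have h4 : Q * c ≤ T / 2 := by
        have h5 : Q * (2 * X / T) ≤ T / 4 := by
          rw [mul_div_assoc', div_le_iff₀ hT]
          nlinarith
        nlinarith
      have hc0 : 0 ≤ c := by rw [hc]; positivity
      nlinarith
    · have h2 : (⌈2 * X / T⌉₊ : ℝ) < 2 * X / T + 1 := Nat.ceil_lt_add_one (by positivity)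
      have h3 : (⌈2 * X / T⌉₊ : ℝ) * T ≤ (2 * X / T + 1) * T :=
        mul_le_mul_of_nonneg_right h2.le hT.le
      have h4 : (2 * X / T + 1) * T = 2 * X + T := by field_simp
      linarith
  have hex' : ∃ u : ℕ, X ≤ (u : ℝ) * (T - Q * u) := by
    obtain ⟨u, hu, _⟩ := hex
    exact ⟨u, hu⟩
  obtain ⟨u1, hu1, hu1T⟩ := hex
  have hfind := Nat.find_spec hex'
  have hle : Nat.find hex' ≤ u1 := Nat.find_min' hex' hu1
  have hpos : 1 ≤ Nat.find hex' := by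
    rcases Nat.eq_zero_or_pos (Nat.find hex') with h0 | h0
    · rw [h0] at hfind
      simp at hfind
      linarith
    · exact h0
  refine ⟨Nat.find hex', hpos, hfind, ?_, ?_⟩
  · have hmin := Nat.find_min hex' (m := Nat.find hex' - 1) (by omega)
    push Not at hmin
    rw [Nat.cast_sub hpos] at hmin
    simpa using hmin
  · have h1 : (Nat.find hex' : ℝ) ≤ (u1 : ℝ) := by exact_mod_cast hle
    have h2 : (Nat.find hex' : ℝ) * T ≤ (u1 : ℝ) * T := mul_le_mul_of_nonneg_right h1 hT.le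
    linarith

end Pool.Agent.TH664.CG
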