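import Pool.Agent.TH664.CG.Sie

/-! The radicands. -/

set_option autoImplicit false

namespace Pool.Agent.TH664.CG

/-- the arithmetic of one radicand: squarefree-ness and residue class -/
theorem sqfree_d {M g b l T Q N u : ℕ} (hg : Squarefree g) (hgM : g ∣ M) (hb : Nat.Coprime b (6 * M))
    (hl : l.Prime) (hl6 : ¬ l ∣ 6 * M) (hN : N = 36 * M * g * l) (hQ : Q = 36 * M ^ 2)
    (hT : ∀ p : ℕ, p.Prime → p ∣ T → p = l) (hTl : l ∣ T) (hu1 : u ≡ 1 [MOD l])
    (huT : u * T ≡ g * b [MOD 36 * M * g]) (hQu : Q * u ≤ T)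
    (hs : ∀ p : ℕ, p.Prime → ¬ p ∣ N → ¬ p ^ 2 ∣ u ∧ ¬ p ^ 2 ∣ T - Q * u) :
    Squarefree (u * (T - Q * u)) ∧ u * (T - Q * u) ≡ g * b [MOD 36 * M * g] := by
  obtain ⟨M1, hM1⟩ := hgM
  have hclass : u * (T - Q * u) ≡ g * b [MOD 36 * M * g] := by
    refine Nat.ModEq.trans ?_ huT
    have h1 : u * (T - Q * u) + (36 * M * g) * (M1 * u * u) = u * T := by
      have h2 : u * (T - Q * u) + u * (Q * u) = u * T := by
        rw [← Nat.mul_add, Nat.sub_add_cancel hQu]
      have h3 : (36 * M * g) * (M1 * u * u) = u * (Q * u) := by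
        have h4 : (36 * M * g) * (M1 * u * u) = 36 * M * (g * M1) * u * u := by ring
        rw [h4, ← hM1, hQ]
        ring
      rw [h3, h2]
    have h2 : u * (T - Q * u) + (36 * M * g) * (M1 * u * u) ≡ u * (T - Q * u) [MOD 36 * M * g] := by
      unfold Nat.ModEq
      rw [Nat.add_mul_mod_self_left]
    rw [h1] at h2
    exact h2.symm
  have hlu : ¬ l ∣ u := by
    intro h
    have h1 : u % l = 1 % l := hu1
    rw [Nat.mod_eq_zero_of_dvd h, Nat.mod_eq_of_lt hl.one_lt] at h1
    omega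
  have hlQ : ¬ l ∣ Q := by
    rw [hQ]
    intro h
    apply hl6
    have h1 : l ∣ (6 * M) ^ 2 := by
      have : (6 * M) ^ 2 = 36 * M ^ 2 := by ring
      rwa [this]
    exact hl.dvd_of_dvd_pow h1
  have hlv : ¬ l ∣ T - Q * u := by
    intro h
    have h1 : l ∣ Q * u := by
      have h2 : l ∣ T - (T - Q * u) := Nat.dvd_sub hTl h
      rwa [Nat.sub_sub_self hQu] at h2
    rcases (Nat.Prime.dvd_mul hl).1 h1 with h3 | h3
    · exact hlQ h3
    · exact hlu h3
  refine ⟨?_, hclass⟩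
  rw [Nat.squarefree_iff_prime_squarefree]
  intro p hp hpd
  have hpd' : p ∣ u * (T - Q * u) := (Dvd.intro _ rfl).trans hpd
  by_cases hpN : p ∣ N
  · rw [hN] at hpN
    rcases (Nat.Prime.dvd_mul hp).1 hpN with h1 | h1
    · -- `p` divides `6 M`
      have hp6M : p ∣ 6 * M := by
        rcases (Nat.Prime.dvd_mul hp).1 h1 with h2 | h2
        · have h3 : (36 * M) ∣ (6 * M) ^ 2 := ⟨M, by ring⟩
          exact hp.dvd_of_dvd_pow (h2.trans h3)
        · exact (h2.trans ⟨M1, hM1⟩).mul_left 6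
      have hpb : ¬ p ∣ b := fun h => by
        have := Nat.dvd_gcd h hp6M
        rw [hb] at this
        exact hp.one_lt.ne' (Nat.dvd_one.1 this)
      have hpL : p ∣ 36 * M * g := h1
      have h2 : p ∣ g * b := (hclass.dvd_iff hpL).1 hpd'
      have hpg : p ∣ g := ((Nat.Prime.dvd_mul hp).1 h2).resolve_right hpb
      have hpM : p ∣ M := hpg.trans ⟨M1, hM1⟩
      have hppL : p * p ∣ 36 * M * g := by
        have : p * p ∣ M * g := Nat.mul_dvd_mul hpM hpg
        rw [mul_assoc]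
        exact this.mul_left 36
      have h3 : p * p ∣ g * b := (hclass.dvd_iff hppL).1 hpd
      have hc : Nat.Coprime (p * p) b :=
        Nat.Coprime.mul_left ((Nat.Prime.coprime_iff_not_dvd hp).2 hpb)
          ((Nat.Prime.coprime_iff_not_dvd hp).2 hpb)
      have h4 : p * p ∣ g := hc.dvd_of_dvd_mul_right h3
      exact hp.one_lt.ne' (Nat.isUnit_iff.1 (hg p h4))
    · have : p = l := (Nat.prime_dvd_prime_iff_eq hp hl).1 h1
      subst this
      rcases (Nat.Prime.dvd_mul hp).1 hpd' with h2 | h2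
      · exact hlu h2
      · exact hlv h2
  · obtain ⟨h1, h2⟩ := hs p hp hpN
    by_cases hpu : p ∣ u
    · have hpv : ¬ p ∣ T - Q * u := by
        intro h
        have h3 : p ∣ T := by
          have h4 : p ∣ (T - Q * u) + Q * u := dvd_add h (hpu.mul_left Q)
          rwa [Nat.sub_add_cancel hQu] at h4
        have h5 := hT p hp h3
        rw [hN, h5] at hpN
        exact hpN (dvd_mul_left l _)
      have hc : Nat.Coprime (p ^ 2) (T - Q * u) :=
        Nat.Coprime.pow_left 2 ((Nat.Prime.coprime_iff_not_dvd hp).2 hpv)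
      rw [← pow_two] at hpd
      exact h1 (hc.dvd_of_dvd_mul_right hpd)
    · have hc : Nat.Coprime (p ^ 2) u :=
        Nat.Coprime.pow_left 2 ((Nat.Prime.coprime_iff_not_dvd hp).2 hpu)
      rw [← pow_two] at hpd
      exact h2 (hc.dvd_of_dvd_mul_left hpd)

end Pool.Agent.TH664.CG
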