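import Pool.Agent.TH664.LN.Sieve

/-! A linear sieve and small auxiliary facts. -/

set_option autoImplicit false

namespace Pool.Agent.TH664.CG

open Finset

theorem spaced_card {H m : ℕ} (hm : 0 < m) {T : Finset ℕ} (hT : T ⊆ range H)
    (h : ∀ x ∈ T, ∀ y ∈ T, (m : ℤ) ∣ (x : ℤ) - y) : (T.card : ℝ) ≤ H / m + 1 := by
  have h1 : (T.image fun x => x + H) ⊆ Ico H (2 * H) := by
    intro x hx
    obtain ⟨y, hy, rfl⟩ := Finset.mem_image.1 hx
    have := Finset.mem_range.1 (hT hy)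
    rw [Finset.mem_Ico]
    omega
  have h2 := Pool.Agent.TH664.LN.ico_card hm h1 (by
    intro x hx y hy
    obtain ⟨x', hx', rfl⟩ := Finset.mem_image.1 hx
    obtain ⟨y', hy', rfl⟩ := Finset.mem_image.1 hy
    have := h x' hx' y' hy'
    push_cast
    have e : ((x' : ℤ) + H - (y' + H)) = x' - y' := by ring
    rw [e]
    exact this)
  rwa [Finset.card_image_of_injective _ (add_left_injective H)] at h2

theorem sum_sq (B : ℕ) : ∑ m ∈ Ico 5 (B + 1), (1 : ℝ) / (m : ℝ) ^ 2 ≤ 1 / 4 := by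
  have key : ∀ B : ℕ, 4 ≤ B → ∑ m ∈ Ico 5 (B + 1), (1 : ℝ) / (m : ℝ) ^ 2 ≤ 1 / 4 - 1 / B := by
    intro B hB
    induction B, hB using Nat.le_induction with
    | base => norm_num
    | succ B hB ih =>
      rw [Finset.sum_Ico_succ_top (by omega)]
      have hB0 : (0 : ℝ) < B := by
        have : 0 < B := by omega
        exact_mod_cast this
      have h1 : (1 : ℝ) / ((B + 1 : ℕ) : ℝ) ^ 2 ≤ 1 / B - 1 / ((B + 1 : ℕ) : ℝ) := by
        push_cast
        rw [div_sub_div _ _ (by positivity) (by positivity), div_le_div_iff₀ (by positivity) (by positivity)]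
        nlinarith
      linarith
  rcases Nat.lt_or_ge B 4 with h | h
  · rw [Finset.Ico_eq_empty (by omega), Finset.sum_empty]
    norm_num
  · have := key B h
    have hB0 : (0 : ℝ) ≤ 1 / (B : ℝ) := by positivity
    linarith

/-- the sieve -/
theorem sieve {N T Q U H : ℕ} (h6 : 6 ∣ N) (hQ : ∀ p : ℕ, p.Prime → p ∣ Q → p ∣ N) (hU : 0 < U)
    (hr : Q * (U + N * H) < T) (hu : U + N * H ≤ T) (hH : 4 * Nat.sqrt T < H) :
    ∃ i < H, ∀ p : ℕ, p.Prime → ¬ p ∣ N →
      ¬ p ^ 2 ∣ U + N * i ∧ ¬ p ^ 2 ∣ T - Q * (U + N * i) := by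
  classical
  by_contra hcon
  push Not at hcon
  set B := Nat.sqrt T with hB
  set P := (Ico 5 (B + 1)).filter fun p => p.Prime ∧ ¬ p ∣ N with hP
  set A1 : ℕ → Finset ℕ := fun p => (range H).filter fun i => p ^ 2 ∣ U + N * i with hA1
  set A2 : ℕ → Finset ℕ := fun p => (range H).filter fun i => p ^ 2 ∣ T - Q * (U + N * i) with hA2
  have hcover : range H ⊆ P.biUnion fun p => A1 p ∪ A2 p := by
    intro i hi
    have hiH := Finset.mem_range.1 hi
    obtain ⟨p, hp, hpN, h⟩ := hcon i hiH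
    have hNi : N * i ≤ N * H := Nat.mul_le_mul_left _ hiH.le
    have hQi : Q * (U + N * i) ≤ Q * (U + N * H) := Nat.mul_le_mul_left _ (by omega)
    have hple : p ^ 2 ≤ T := by
      by_cases h1 : p ^ 2 ∣ U + N * i
      · exact (Nat.le_of_dvd (by omega) h1).trans (by omega)
      · exact (Nat.le_of_dvd (by omega) (h h1)).trans (Nat.sub_le _ _)
    have hpB : p ≤ B := by
      rw [hB, Nat.le_sqrt]
      rw [pow_two] at hple
      exact hple
    have hp5 : 5 ≤ p := by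
      by_contra hlt
      have h2 := hp.two_le
      have hp3 : p = 2 ∨ p = 3 ∨ p = 4 := by omega
      rcases hp3 with rfl | rfl | rfl
      · exact hpN ((show 2 ∣ 6 by norm_num).trans h6)
      · exact hpN ((show 3 ∣ 6 by norm_num).trans h6)
      · exact absurd hp (by norm_num)
    refine Finset.mem_biUnion.2 ⟨p, ?_, ?_⟩
    · rw [hP, Finset.mem_filter, Finset.mem_Ico]
      exact ⟨⟨hp5, by omega⟩, hp, hpN⟩
    · rw [Finset.mem_union]
      by_cases h1 : p ^ 2 ∣ U + N * i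
      · left
        exact Finset.mem_filter.2 ⟨hi, h1⟩
      · right
        exact Finset.mem_filter.2 ⟨hi, h h1⟩
  have hcard : ∀ p ∈ P, ((A1 p ∪ A2 p).card : ℝ) ≤ 2 * (H * (1 / (p : ℝ) ^ 2) + 1) := by
    intro p hpP
    rw [hP, Finset.mem_filter] at hpP
    obtain ⟨_, hp, hpN⟩ := hpP
    have hpos : 0 < p ^ 2 := pow_pos hp.pos 2
    have hcN : IsCoprime ((p ^ 2 : ℕ) : ℤ) (N : ℤ) := by
      rw [Nat.isCoprime_iff_coprime]
      exact Nat.Coprime.pow_left 2 ((Nat.Prime.coprime_iff_not_dvd hp).2 hpN)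
    have hcQ : IsCoprime ((p ^ 2 : ℕ) : ℤ) (Q : ℤ) := by
      rw [Nat.isCoprime_iff_coprime]
      refine Nat.Coprime.pow_left 2 ((Nat.Prime.coprime_iff_not_dvd hp).2 fun h => ?_)
      exact hpN (hQ p hp h)
    have c1 : ((A1 p).card : ℝ) ≤ H / ((p ^ 2 : ℕ) : ℝ) + 1 := by
      refine spaced_card hpos (Finset.filter_subset _ _) fun x hx y hy => ?_
      have hx' := (Finset.mem_filter.1 hx).2
      have hy' := (Finset.mem_filter.1 hy).2
      have h1 : ((p ^ 2 : ℕ) : ℤ) ∣ ((U + N * x : ℕ) : ℤ) := by exact_mod_cast hx'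
      have h2 : ((p ^ 2 : ℕ) : ℤ) ∣ ((U + N * y : ℕ) : ℤ) := by exact_mod_cast hy'
      have h3 := dvd_sub h1 h2
      push_cast at h3
      have e : (U : ℤ) + N * x - (U + N * y) = N * (x - y) := by ring
      rw [e] at h3
      push_cast at hcN ⊢
      exact hcN.dvd_of_dvd_mul_left h3
    have c2 : ((A2 p).card : ℝ) ≤ H / ((p ^ 2 : ℕ) : ℝ) + 1 := by
      refine spaced_card hpos (Finset.filter_subset _ _) fun x hx y hy => ?_
      obtain ⟨hx0, hx'⟩ := Finset.mem_filter.1 hx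
      obtain ⟨hy0, hy'⟩ := Finset.mem_filter.1 hy
      have hle : ∀ z ∈ range H, Q * (U + N * z) ≤ T := by
        intro z hz
        have hzH := Finset.mem_range.1 hz
        have hNz : N * z ≤ N * H := Nat.mul_le_mul_left _ hzH.le
        have : Q * (U + N * z) ≤ Q * (U + N * H) := Nat.mul_le_mul_left _ (by omega)
        omega
      have h1 : ((p ^ 2 : ℕ) : ℤ) ∣ ((T - Q * (U + N * x) : ℕ) : ℤ) := by exact_mod_cast hx'
      have h2 : ((p ^ 2 : ℕ) : ℤ) ∣ ((T - Q * (U + N * y) : ℕ) : ℤ) := by exact_mod_cast hy'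
      rw [Nat.cast_sub (hle x hx0)] at h1
      rw [Nat.cast_sub (hle y hy0)] at h2
      have h3 := dvd_sub h2 h1
      push_cast at h3
      have e : (T : ℤ) - Q * (U + N * y) - (T - Q * (U + N * x)) = Q * (N * (x - y)) := by ring
      rw [e] at h3
      push_cast at hcN hcQ ⊢
      exact hcN.dvd_of_dvd_mul_left (hcQ.dvd_of_dvd_mul_left h3)
    have c3 : ((A1 p ∪ A2 p).card : ℝ) ≤ (A1 p).card + (A2 p).card := by
      exact_mod_cast Finset.card_union_le _ _
    push_cast at c1 c2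
    have e : (H : ℝ) * (1 / (p : ℝ) ^ 2) = H / (p : ℝ) ^ 2 := by ring
    rw [e]
    linarith
  have h1 : (H : ℝ) ≤ ∑ p ∈ P, 2 * (H * (1 / (p : ℝ) ^ 2) + 1) := by
    calc (H : ℝ) = ((range H).card : ℝ) := by rw [Finset.card_range]
      _ ≤ ((P.biUnion fun p => A1 p ∪ A2 p).card : ℝ) := by
          exact_mod_cast Finset.card_le_card hcover
      _ ≤ ((∑ p ∈ P, (A1 p ∪ A2 p).card : ℕ) : ℝ) := by exact_mod_cast Finset.card_biUnion_le
      _ = ∑ p ∈ P, ((A1 p ∪ A2 p).card : ℝ) := by push_cast; rfl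
      _ ≤ _ := Finset.sum_le_sum hcard
  have h2 : ∑ p ∈ P, 2 * ((H : ℝ) * (1 / (p : ℝ) ^ 2) + 1) ≤
      ∑ p ∈ Ico 5 (B + 1), 2 * ((H : ℝ) * (1 / (p : ℝ) ^ 2) + 1) :=
    Finset.sum_le_sum_of_subset_of_nonneg (Finset.filter_subset _ _) fun _ _ _ => by positivity
  have h3 : ∑ p ∈ Ico 5 (B + 1), 2 * ((H : ℝ) * (1 / (p : ℝ) ^ 2) + 1) ≤
      (H : ℝ) / 2 + 2 * (B : ℝ) := by
    rw [← Finset.mul_sum, Finset.sum_add_distrib, ← Finset.mul_sum, Finset.sum_const,
      Nat.card_Ico, nsmul_eq_mul, mul_one]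
    have h4 := sum_sq B
    have h5 : ((B + 1 - 5 : ℕ) : ℝ) ≤ B := by
      have : B + 1 - 5 ≤ B := by omega
      exact_mod_cast this
    have h6 : (H : ℝ) * ∑ m ∈ Ico 5 (B + 1), (1 : ℝ) / (m : ℝ) ^ 2 ≤ H * (1 / 4) :=
      mul_le_mul_of_nonneg_left h4 (Nat.cast_nonneg H)
    linarith
  have h7 : (4 : ℝ) * B < H := by exact_mod_cast hH
  linarith

/-- a small prime not dividing `m` -/
theorem small_prime (K : ℕ) (hK : 1 ≤ K) : ∃ C : ℕ, 1 ≤ C ∧ ∀ m : ℕ, 1 ≤ m →
    ∃ l : ℕ, l.Prime ∧ ¬ l ∣ m ∧ l ^ K ≤ C * m := by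
  refine ⟨2 ^ (K * K + K), Nat.one_le_two_pow, fun m hm => ?_⟩
  -- `Y ^ K` between `m` and `2 ^ K m`
  obtain ⟨Y, hY0, hY1, hY2⟩ : ∃ Y : ℕ, 1 ≤ Y ∧ m ≤ Y ^ K ∧ Y ^ K ≤ 2 ^ K * m := by
    have hex : ∃ Y : ℕ, m ≤ Y ^ K := ⟨m, Nat.le_self_pow (by omega) m⟩
    classical
    set Y := Nat.find hex with hYd
    have h1 : m ≤ Y ^ K := Nat.find_spec hex
    have hY1 : 1 ≤ Y := by
      by_contra h
      have : Y = 0 := by omega
      rw [this, zero_pow (by omega)] at h1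
      omega
    refine ⟨Y, hY1, h1, ?_⟩
    rcases Nat.eq_or_lt_of_le hY1 with h | h
    · rw [← h, one_pow]
      exact Nat.mul_pos (by positivity) hm
    · have h2 : ¬ m ≤ (Y - 1) ^ K := Nat.find_min hex (by omega)
      push Not at h2
      calc Y ^ K ≤ (2 * (Y - 1)) ^ K := Nat.pow_le_pow_left (by omega) K
        _ = 2 ^ K * (Y - 1) ^ K := by rw [mul_pow]
        _ ≤ 2 ^ K * m := Nat.mul_le_mul_left _ h2.le
  have hq : ∀ j : ℕ, ∃ q : ℕ, q.Prime ∧ Y * 2 ^ j < q ∧ q ≤ Y * 2 ^ (j + 1) := by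
    intro j
    obtain ⟨q, hq, h1, h2⟩ := Nat.exists_prime_lt_and_le_two_mul (Y * 2 ^ j) (by positivity)
    refine ⟨q, hq, h1, ?_⟩
    calc q ≤ 2 * (Y * 2 ^ j) := h2
      _ = Y * 2 ^ (j + 1) := by ring
  choose q hqp hq1 hq2 using hq
  by_cases hall : ∀ j < K, q j ∣ m
  · exfalso
    have hlt : ∀ i j, i < j → q i < q j := by
      intro i j hij
      calc q i ≤ Y * 2 ^ (i + 1) := hq2 i
        _ ≤ Y * 2 ^ j := Nat.mul_le_mul_left _ (Nat.pow_le_pow_right (by norm_num) hij)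
        _ < q j := hq1 j
    have hdvd : ∏ j ∈ range K, q j ∣ m := by
      have hinj : Function.Injective q := by
        intro i j hij
        by_contra hne
        rcases Nat.lt_or_gt_of_ne hne with h | h
        · exact (hlt i j h).ne hij
        · exact (hlt j i h).ne' hij
      have e : ∏ j ∈ range K, q j = ∏ p ∈ (range K).image q, p := by
        rw [Finset.prod_image fun i _ j _ hij => hinj hij]
      rw [e]
      refine Finset.prod_primes_dvd m ?_ ?_
      · intro p hp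
        obtain ⟨j, hj, rfl⟩ := Finset.mem_image.1 hp
        exact (hqp j).prime
      · intro p hp
        obtain ⟨j, hj, rfl⟩ := Finset.mem_image.1 hp
        exact hall j (Finset.mem_range.1 hj)
    have h1 : ∏ j ∈ range K, q j ≤ m := Nat.le_of_dvd (by omega) hdvd
    have h2 : Y ^ K < ∏ j ∈ range K, q j := by
      have : ∏ _j ∈ range K, Y < ∏ j ∈ range K, q j := by
        refine Finset.prod_lt_prod_of_nonempty (fun _ _ => by omega) (fun j _ => ?_)
          ⟨0, Finset.mem_range.2 (by omega)⟩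
        calc Y ≤ Y * 2 ^ j := Nat.le_mul_of_pos_right _ (by positivity)
          _ < q j := hq1 j
      rwa [Finset.prod_const, Finset.card_range] at this
    omega
  · push Not at hall
    obtain ⟨j, hj, hjm⟩ := hall
    refine ⟨q j, hqp j, hjm, ?_⟩
    calc q j ^ K ≤ (Y * 2 ^ (j + 1)) ^ K := Nat.pow_le_pow_left (hq2 j) K
      _ = Y ^ K * 2 ^ ((j + 1) * K) := by rw [mul_pow, ← pow_mul]
      _ ≤ (2 ^ K * m) * 2 ^ (K * K) := by
          refine Nat.mul_le_mul hY2 (Nat.pow_le_pow_right (by norm_num) ?_)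
          exact Nat.mul_le_mul_right _ (by omega)
      _ = 2 ^ (K * K + K) * m := by rw [pow_add]; ring

/-- lifting a unit modulo `M1` to a number prime to `m` -/
theorem exists_lift {a M m : ℕ} (h : Nat.Coprime a M) (hm : m ≠ 0) :
    ∃ t : ℕ, Nat.Coprime (a + M * t) m := by
  classical
  set t := ∏ p ∈ m.primeFactors.filter (fun p => ¬ p ∣ a), p with ht
  refine ⟨t, ?_⟩
  rw [Nat.coprime_iff_gcd_eq_one, Nat.Coprime.gcd_eq_one]
  refine Nat.Coprime.symm (Nat.coprime_of_dvd fun p hp hpm hpa => ?_)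
  by_cases hpa' : p ∣ a
  · have h1 : p ∣ M * t := (Nat.dvd_add_right hpa').1 hpa
    rcases (Nat.Prime.dvd_mul hp).1 h1 with h2 | h2
    · have := Nat.dvd_gcd hpa' h2
      rw [h] at this
      exact hp.one_lt.ne' (Nat.dvd_one.1 this)
    · rw [ht, Prime.dvd_finsetProd_iff hp.prime] at h2
      obtain ⟨r, hr, hpr⟩ := h2
      rw [Finset.mem_filter] at hr
      have hrp := Nat.prime_of_mem_primeFactors hr.1
      have : p = r := (Nat.prime_dvd_prime_iff_eq hp hrp).1 hpr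
      subst this
      exact hr.2 hpa'
  · have h1 : p ∣ t := by
      rw [ht]
      exact Finset.dvd_prod_of_mem _ (Finset.mem_filter.2
        ⟨Nat.mem_primeFactors.2 ⟨hp, hpm, hm⟩, hpa'⟩)
    exact hpa' ((Nat.dvd_add_left (h1.mul_left M)).1 hpa)

end Pool.Agent.TH664.CG
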